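import Pool.Agent.P.MP_750e2a_gt.LCMain

set_option autoImplicit false

namespace Pool.Agent.Results.MP_750e2a_gt.LocallyCompactUnion

open Pool.Agent.P.MP_750e2a_gt

theorem result (X : Type) [TopologicalSpace X] [T35Space X] [LindelofSpace X]
    (Y : Set (X → ℝ)) (F : (ℕ → ℕ) → Set (X → ℝ))
    (hY : {f : X → ℝ | Continuous f} ⊆ Y) (hc : ∀ σ, IsCompact (F σ)) (hU : (⋃ σ, F σ) = Y)
    (hu : ∀ (σ : ℕ → ℕ) (U : Set (X → ℝ)), IsOpen U → F σ ⊆ U → ∀ᶠ τ in nhds σ, F τ ⊆ U) :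
    ∃ L : ℕ → Set X, (∀ n, LocallyCompactSpace (L n)) ∧ (⋃ n, L n) = Set.univ := by
  obtain ⟨φ, hφ⟩ := LC.exists_dom hc hu (hU ▸ hY)
  exact LC.main hφ

end Pool.Agent.Results.MP_750e2a_gt.LocallyCompactUnion
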