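import Pool.Agent.P.MP_750e2a_gt.NkKan
import Pool.Agent.P.MP_750e2a_gt.NkNot

set_option autoImplicit false

namespace Pool.Agent.Results.MP_750e2a_gt.NotKAnalytic

open Pool.Agent.P.MP_750e2a_gt

theorem result :
    ∃ (X : Type) (_ : TopologicalSpace X), T35Space X ∧ FirstCountableTopology X ∧
      LindelofSpace X ∧
      (¬ ∃ G : (ℕ → ℕ) → Set X,
        (∀ σ, IsCompact (G σ)) ∧
        (⋃ σ, G σ) = Set.univ ∧
        (∀ (σ : ℕ → ℕ) (U : Set X), IsOpen U → G σ ⊆ U → ∀ᶠ τ in nhds σ, G τ ⊆ U)) ∧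
      ∃ F : (ℕ → ℕ) → Set (X → ℝ),
        (∀ σ, IsCompact (F σ)) ∧
        (⋃ σ, F σ) = {f : X → ℝ | Continuous f} ∧
        (∀ (σ : ℕ → ℕ) (U : Set (X → ℝ)), IsOpen U → F σ ⊆ U →
            ∀ᶠ τ in nhds σ, F τ ⊆ U) := by
  refine ⟨NK.X, inferInstance, inferInstance, inferInstance, inferInstance,
    NK.not_kanalytic NK.X.pt (fun _ _ h => by injection h) (fun ξ β A hA => ?_),
    NK.K, NK.isCompact_K, NK.iUnion_K, NK.usc_K⟩
  refine ⟨(NK.isOpen_iff _).2 fun η _ => ?_⟩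
  obtain ⟨k, hk⟩ := NK.avoid_S ξ β η
  refine ⟨k, fun x hx => ?_⟩
  rintro ⟨t, ht, rfl⟩
  exact hk t (hA ht) hx

/-- Side theorem: every sigma-compact space is K-analytic in the sense of `result`. -/
theorem kanalytic_of_sigmaCompact (X : Type) [TopologicalSpace X] (K : ℕ → Set X)
    (hK : ∀ n, IsCompact (K n)) (hU : (⋃ n, K n) = Set.univ) :
    ∃ G : (ℕ → ℕ) → Set X,
      (∀ σ, IsCompact (G σ)) ∧
      (⋃ σ, G σ) = Set.univ ∧
      (∀ (σ : ℕ → ℕ) (U : Set X), IsOpen U → G σ ⊆ U → ∀ᶠ τ in nhds σ, G τ ⊆ U) :=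
  @NK.kanalytic_of_sigmaCompact X _ ⟨⟨K, hK, hU⟩⟩

/-- Side theorem: the form with a space that is not sigma-compact. -/
theorem not_sigmaCompact_form :
    ∃ (X : Type) (_ : TopologicalSpace X), T35Space X ∧ FirstCountableTopology X ∧
      LindelofSpace X ∧
      (¬ ∃ K : ℕ → Set X, (∀ n, IsCompact (K n)) ∧ (⋃ n, K n) = Set.univ) ∧
      ∃ F : (ℕ → ℕ) → Set (X → ℝ),
        (∀ σ, IsCompact (F σ)) ∧
        (⋃ σ, F σ) = {f : X → ℝ | Continuous f} ∧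
        (∀ (σ : ℕ → ℕ) (U : Set (X → ℝ)), IsOpen U → F σ ⊆ U →
            ∀ᶠ τ in nhds σ, F τ ⊆ U) := by
  obtain ⟨X, i, h1, h2, h3, h4, h5⟩ := result
  exact ⟨X, i, h1, h2, h3, fun ⟨K, hK, hU⟩ => h4 (kanalytic_of_sigmaCompact X K hK hU), h5⟩

end Pool.Agent.Results.MP_750e2a_gt.NotKAnalytic
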