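import Pool.Agent.P.MP_750e2a_gt.SpSpace
import Pool.Agent.P.MP_750e2a_gt.NkNot

set_option autoImplicit false

namespace Pool.Agent.Results.MP_750e2a_gt.Separable

open Pool.Agent.P.MP_750e2a_gt

theorem result :
    ∃ (X : Type) (_ : TopologicalSpace X), T35Space X ∧ FirstCountableTopology X ∧
      TopologicalSpace.SeparableSpace X ∧ LindelofSpace X ∧
      (¬ ∃ G : (ℕ → ℕ) → Set X,
        (∀ σ, IsCompact (G σ)) ∧
        (⋃ σ, G σ) = Set.univ ∧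
        (∀ (σ : ℕ → ℕ) (U : Set X), IsOpen U → G σ ⊆ U → ∀ᶠ τ in nhds σ, G τ ⊆ U)) ∧
      ∃ (Y : Set (X → ℝ)) (F : (ℕ → ℕ) → Set (X → ℝ)),
        {f : X → ℝ | Continuous f} ⊆ Y ∧
        (∀ σ, IsCompact (F σ)) ∧
        (⋃ σ, F σ) = Y ∧
        (∀ (σ : ℕ → ℕ) (U : Set (X → ℝ)), IsOpen U → F σ ⊆ U →
            ∀ᶠ τ in nhds σ, F τ ⊆ U) :=
  ⟨SP.Z, inferInstance, inferInstance, inferInstance, inferInstance, inferInstance,
    NK.not_kanalytic SP.Z.pt (fun _ _ h => by injection h) (fun _ _ _ hA => SP.isClosed_pt hA),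
    _, SP.F, fun f hf => Set.mem_iUnion.2 (SP.mem_F f hf), SP.isCompact_F, rfl, SP.usc_F⟩

/-- Side theorem: the form with a space that is not sigma-compact. -/
theorem not_sigmaCompact_form :
    ∃ (X : Type) (_ : TopologicalSpace X), T35Space X ∧ FirstCountableTopology X ∧
      TopologicalSpace.SeparableSpace X ∧ LindelofSpace X ∧
      (¬ ∃ K : ℕ → Set X, (∀ n, IsCompact (K n)) ∧ (⋃ n, K n) = Set.univ) ∧
      ∃ (Y : Set (X → ℝ)) (F : (ℕ → ℕ) → Set (X → ℝ)),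
        {f : X → ℝ | Continuous f} ⊆ Y ∧
        (∀ σ, IsCompact (F σ)) ∧
        (⋃ σ, F σ) = Y ∧
        (∀ (σ : ℕ → ℕ) (U : Set (X → ℝ)), IsOpen U → F σ ⊆ U →
            ∀ᶠ τ in nhds σ, F τ ⊆ U) := by
  obtain ⟨X, i, h1, h2, h3, h4, h5, h6⟩ := result
  exact ⟨X, i, h1, h2, h3, h4,
    fun ⟨K, hK, hU⟩ => h5 (@NK.kanalytic_of_sigmaCompact X _ ⟨⟨K, hK, hU⟩⟩), h6⟩

end Pool.Agent.Results.MP_750e2a_gt.Separable
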